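import Pool.Agent.Helper1.ZN.Defs3

/-!
Piece ZB-O: offsets.
-/

namespace Pool.Agent.Helper1.ZN

open Finset Polynomial

theorem offsets (B c e : ℕ) (h : e ≤ B * c) :
    ∃ o : ℕ → ℕ, (∀ i, o i ≤ c) ∧ ∑ i ∈ range B, o i = e := by
  refine ⟨fun i => min e ((i + 1) * c) - min e (i * c), fun i => ?_, ?_⟩
  · have h1 : (i + 1) * c = i * c + c := by ring
    simp only [h1]
    omega
  · have hm : Monotone fun i : ℕ => min e (i * c) := by
      intro a b hab
      exact min_le_min le_rfl (Nat.mul_le_mul_right c hab)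
    have h2 := Finset.sum_range_tsub hm B
    rw [h2]
    simp [h]

end Pool.Agent.Helper1.ZN
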