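import Pool.Agent.Helper1.ZN.Defs3

/-!
Piece ZB-M1: eight quadratics of the same sign.
-/

namespace Pool.Agent.Helper1.ZN

open Finset Polynomial

/-- a monic polynomial of degree `n` with positive coefficients. -/
def h63Pos (n : ℕ) (P : ℝ[X]) : Prop := P.natDegree = n ∧ P.Monic ∧ ∀ i ≤ n, 0 < P.coeff i

theorem h63quad_monic (a b : ℝ) : (X ^ 2 + C a * X + C b : ℝ[X]).Monic := by
  monicity!

theorem h63quad_natDegree (a b : ℝ) : (X ^ 2 + C a * X + C b : ℝ[X]).natDegree = 2 := by
  compute_degree!

theorem h63quad_pos (a b : ℝ) (ha : 0 < a) (hb : 0 < b) :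
    h63Pos 2 (X ^ 2 + C a * X + C b : ℝ[X]) := by
  refine ⟨h63quad_natDegree a b, h63quad_monic a b, fun i hi => ?_⟩
  interval_cases i <;> simp [coeff_X, coeff_C, coeff_X_pow, ha, hb]

theorem h63step (n : ℕ) (hn : 1 ≤ n) (P : ℝ[X]) (hP : h63Pos n P) (a b : ℝ) (ha : 0 ≤ a)
    (hb : 0 < b) : h63Pos (n + 2) ((X ^ 2 + C a * X + C b) * P) := by
  obtain ⟨h1, h2, h3⟩ := hP
  have hm := (h63quad_monic a b).mul h2
  refine ⟨?_, hm, fun i hi => ?_⟩
  · rw [(h63quad_monic a b).natDegree_mul h2, h63quad_natDegree, h1]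
    omega
  · have hc : ((X ^ 2 + C a * X + C b) * P).coeff i =
        (if 2 ≤ i then P.coeff (i - 2) else 0) + a * (if 1 ≤ i then P.coeff (i - 1) else 0) +
          b * P.coeff i := by
      rw [add_mul, add_mul, coeff_add, coeff_add, coeff_X_pow_mul', mul_assoc, coeff_C_mul,
        coeff_C_mul]
      congr 3
      have := coeff_X_pow_mul' P 1 i
      simpa using this
    have hnn : ∀ j, 0 ≤ P.coeff j := by
      intro j
      rcases le_or_gt j n with hj | hj
      · exact (h3 j hj).le
      · rw [coeff_eq_zero_of_natDegree_lt (by omega)]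
    have e1 : 0 ≤ (if 2 ≤ i then P.coeff (i - 2) else 0) := by
      split_ifs
      · exact hnn _
      · exact le_rfl
    have e2 : 0 ≤ a * (if 1 ≤ i then P.coeff (i - 1) else 0) := by
      apply mul_nonneg ha
      split_ifs
      · exact hnn _
      · exact le_rfl
    rw [hc]
    rcases le_or_gt i n with hj | hj
    · have := mul_pos hb (h3 i hj)
      linarith
    · have h4 : 0 < (if 2 ≤ i then P.coeff (i - 2) else 0) := by
        rw [if_pos (by omega)]
        exact h3 _ (by omega)
      have := mul_nonneg hb.le (hnn i)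
      linarith

/-- eight quadratics of the same sign, one of them strictly. -/
theorem big_block (s : ℝ) (hs : s = 1 ∨ s = -1) (U V : Fin 8 → ℝ) (hU : ∀ i, 0 ≤ s * U i)
    (hV : ∀ i, 0 < V i) (h0 : ∃ i, 0 < s * U i) :
    OkC 16 (fun x => ∏ i, (x ^ 2 - U i * x + V i)) := by
  obtain ⟨i0, hi0⟩ := h0
  set Q : Fin 8 → ℝ[X] := fun i => X ^ 2 + C (s * U i) * X + C (V i) with hQ
  have key : ∀ T : Finset (Fin 8), i0 ∉ T → h63Pos (2 + 2 * T.card) ((∏ i ∈ T, Q i) * Q i0) := by
    intro T
    induction T using Finset.induction_on with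
    | empty =>
      intro _
      simpa [hQ] using h63quad_pos _ _ hi0 (hV i0)
    | insert a T ha ih =>
      intro hT
      rw [Finset.prod_insert ha, Finset.card_insert_of_notMem ha, mul_assoc]
      have h1 := ih (fun h => hT (Finset.mem_insert_of_mem h))
      have h2 := h63step _ (by omega) _ h1 (s * U a) (V a) (hU a) (hV a)
      have e : 2 + 2 * (T.card + 1) = 2 + 2 * T.card + 2 := by ring
      rw [e]
      exact h2
  have hk := key (univ.erase i0) (Finset.notMem_erase _ _)
  rw [Finset.prod_erase_mul _ _ (Finset.mem_univ i0)] at hk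
  have hcard : 2 + 2 * (univ.erase i0 : Finset (Fin 8)).card = 16 := by
    rw [Finset.card_erase_of_mem (Finset.mem_univ _)]
    simp
  rw [hcard] at hk
  obtain ⟨d1, d2, d3⟩ := hk
  have hs2 : s * s = 1 := by rcases hs with h | h <;> rw [h] <;> norm_num
  have hs0 : -s ≠ 0 := by rcases hs with h | h <;> rw [h] <;> norm_num
  refine ⟨fun i => -((∏ j, Q j).coeff i * (-s) ^ i), fun i hi => ?_, fun x => ?_⟩
  · have := (d3 i (by omega)).ne'
    exact neg_ne_zero.mpr (mul_ne_zero this (pow_ne_zero _ hs0))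
  · have ev : (∏ j, Q j).eval (-s * x) = ∏ i, (x ^ 2 - U i * x + V i) := by
      rw [Polynomial.eval_prod]
      apply Finset.prod_congr rfl
      intro i _
      simp only [hQ, eval_add, eval_mul, eval_pow, eval_X, eval_C]
      have : (-s * x) ^ 2 = (s * s) * x ^ 2 := by ring
      rw [this, hs2]
      have : s * U i * (-s * x) = -((s * s) * (U i * x)) := by ring
      rw [this, hs2]
      ring
    simp only
    rw [← ev, Polynomial.eval_eq_sum_range, d1, Finset.sum_range_succ]
    have hl : (∏ j, Q j).coeff 16 = 1 := by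
      have := d2.coeff_natDegree
      rwa [d1] at this
    rw [hl]
    have : (-s * x) ^ 16 = (s * s) ^ 8 * x ^ 16 := by ring
    rw [this, hs2]
    simp only [neg_mul, Finset.sum_neg_distrib, sub_neg_eq_add, one_pow, one_mul]
    rw [add_comm]
    congr 1
    apply Finset.sum_congr rfl
    intro i _
    rw [show -(s * x) = (-s) * x by ring, mul_pow]
    ring

end Pool.Agent.Helper1.ZN
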